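import Pool.Agent.H25.CBase

set_option autoImplicit false

namespace Pool.Agent.Results.MP_f6aff2_lc.NPHard
open Pool.Agent.H11.PT Pool.Agent.H25.CB Finset

/-- vertex names -/
abbrev V := ℕ × ℕ × ℕ

/-- closed neighbourhood of `v` in the graph with vertex list `W` and edge list `E` -/
def nb (W : List V) (E : List (V × V)) (v : V) : Finset V :=
  W.toFinset.filter fun u => u = v ∨ (u, v) ∈ E ∨ (v, u) ∈ E

/-- Z-DOM: the instance is (vertices, edges, p, q) and `k = p - q` in binary -/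
def ZDom (y : List V × List (V × V) × List Bool × List Bool) : Prop :=
  ∃ f : V → ℤ, (∀ v ∈ y.1, 1 ≤ ∑ u ∈ nb y.1 y.2.1 v, f u) ∧
    ∑ v ∈ y.1.toFinset, f v ≤ (bin y.2.2.1 : ℤ) - bin y.2.2.2

def ln (l : Lit) : V := (0, l.1, bif l.2 then 1 else 0)
def blk (t n c : ℕ) : List V := (List.range n ×ˢ List.range c).map fun p => (t, p)
def vs (φ : F3) : List V := blk 0 (nv φ) 6 ++ (blk 1 (nv φ) 8 ++ blk 2 φ.length 8)
def oc (φ : F3) (j : ℕ) (v : V) : ℕ := if v = ln (lit φ (3 * j)) ∨ v = ln (lit φ (3 * j + 1)) ∨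
  v = ln (lit φ (3 * j + 2)) then 1 else 0
def adj (φ : F3) (u v : V) : Prop := (u.1 = 0 ∧ v.1 = 0 ∧ v.2.1 = u.2.1 ∧ v.2.2 = u.2.2 + 2) ∨
  (¬ u.1 = 0 ∧ v.1 = u.1 ∧ v.2.1 = u.2.1 ∧ (v.2.2 = (u.2.2 + 1) % 8 ∨ v.2.2 = u.2.2 + 4)) ∨
  (u.1 = 1 ∧ u.2.2 = 0 ∧ v.1 = 0 ∧ v.2.1 = u.2.1 ∧ v.2.2 < 2) ∨
  (u.1 = 2 ∧ u.2.2 = 0 ∧ v.1 = 0 ∧ v.2.2 < 2 ∧ oc φ u.2.1 v = 1)
instance (φ : F3) (u v : V) : Decidable (adj φ u v) := by unfold adj; infer_instance
def es (φ : F3) : List (V × V) := (vs φ ×ˢ vs φ).filter fun e => decide (adj φ e.1 e.2)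

attribute [fun_prop] PT.toBits

theorem mem_vs {φ : F3} {v : V} : v ∈ vs φ ↔ (v.1 = 0 ∧ v.2.1 < nv φ ∧ v.2.2 < 6) ∨
    (v.1 = 1 ∧ v.2.1 < nv φ ∧ v.2.2 < 8) ∨ (v.1 = 2 ∧ v.2.1 < φ.length ∧ v.2.2 < 8) := by
  obtain ⟨a, b, c⟩ := v
  simp [vs, blk, and_comm, and_assoc, and_left_comm, eq_comm]

theorem mem_nb {φ : F3} {u v : V} (hv : v ∈ vs φ) :
    u ∈ nb (vs φ) (es φ) v ↔ u ∈ vs φ ∧ (u = v ∨ adj φ u v ∨ adj φ v u) := by
  simp only [nb, es, mem_filter, List.mem_toFinset, List.mem_filter, List.mem_product,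
    decide_eq_true_eq]
  tauto

theorem sum_vs (φ : F3) (f : V → ℤ) : ∑ v ∈ (vs φ).toFinset, f v =
    ∑ x ∈ range (nv φ), (∑ c ∈ range 6, f (0, x, c) + ∑ c ∈ range 8, f (1, x, c)) +
      ∑ j ∈ range φ.length, ∑ c ∈ range 8, f (2, j, c) := by
  rw [show (vs φ).toFinset = {0} ×ˢ range (nv φ) ×ˢ range 6 ∪ ({1} ×ˢ range (nv φ) ×ˢ range 8 ∪
    {2} ×ˢ range φ.length ×ˢ range 8) from Finset.ext fun v => by
      simp only [List.mem_toFinset, mem_vs, mem_union, mem_product, mem_singleton, mem_range],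
    sum_union (disjoint_left.2 fun v => by
      simp only [mem_union, mem_product, mem_singleton]; omega),
    sum_union (disjoint_left.2 fun v => by simp only [mem_product, mem_singleton]; omega),
    sum_add_distrib]
  simp only [sum_product, sum_singleton, add_assoc]

theorem ln_0 (l : Lit) : (ln l).1 = 0 ∧ (ln l).2.2 < 2 := by
  obtain ⟨a, _ | _⟩ := l <;> simp [ln]

variable {φ : F3} {f : V → ℤ} (hf : ∀ v ∈ vs φ, 1 ≤ ∑ u ∈ nb (vs φ) (es φ) v, f u)
include hf

theorem path {x c : ℕ} (hx : x < nv φ) (hc : c < 2) :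
    1 + max (f (0, x, c)) 0 ≤ f (0, x, c) + f (0, x, c + 2) + f (0, x, c + 4) := by
  have h1 : (0, x, c + 2) ∈ vs φ := by simp [mem_vs]; omega
  have h2 : (0, x, c + 4) ∈ vs φ := by simp [mem_vs]; omega
  have a1 := hf _ h1
  have a2 := hf _ h2
  rw [show nb _ _ _ = {(0, x, c), (0, x, c + 2), (0, x, c + 4)} from Finset.ext fun ⟨a, b, d⟩ => by
    simp [mem_nb h1, mem_vs, adj]; omega, sum_insert (by simp), sum_pair (by simp)] at a1
  rw [show nb _ _ _ = {(0, x, c + 2), (0, x, c + 4)} from Finset.ext fun ⟨a, b, d⟩ => by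
    simp [mem_nb h2, mem_vs, adj]; omega, sum_pair (by simp)] at a2
  omega

theorem wag {t x : ℕ} (ht : t ≠ 0) (hx : ∀ c < 8, (t, x, c) ∈ vs φ) :
    2 ≤ ∑ c ∈ range 8, f (t, x, c) ∧ (3 ≤ ∑ c ∈ range 8, f (t, x, c) ∨
      ∃ u ∈ vs φ, u.1 = 0 ∧ adj φ (t, x, 0) u ∧ 1 ≤ f u) := by
  have a : ∀ c < 8, c ≠ 0 → 1 ≤ f (t, x, c) + (f (t, x, (c + 1) % 8) + (f (t, x, (c + 4) % 8) +
      f (t, x, (c + 7) % 8))) := fun c hc h0 => by
    have := hf _ (hx c hc)
    rwa [show nb _ _ _ = {(t, x, c), (t, x, (c + 1) % 8), (t, x, (c + 4) % 8), (t, x, (c + 7) % 8)}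
      from Finset.ext fun ⟨a, b, d⟩ => by
        have := hx 7 (by omega)
        simp only [mem_nb (hx c hc), adj, mem_vs, mem_insert, mem_singleton, Prod.mk.injEq, ht, h0,
          false_and, and_false, false_or, or_false, not_false_eq_true, true_and] at this ⊢
        clear * - this hc h0 ht
        by_cases a = t ∧ b = x
        · obtain ⟨rfl, rfl⟩ := ‹_ ∧ _›
          interval_cases c <;> simp [ht] <;> omega
        · by_cases e' : a = t
          · subst e'
            simp_all [eq_comm (b := b)]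
          · simp [e', Ne.symm e'], sum_insert (by simp; omega),
      sum_insert (by simp; omega), sum_pair (by simp; omega)] at this
  have a0 := hf _ (hx 0 (by omega))
  rw [show nb _ _ _ = {(t, x, 0), (t, x, 1), (t, x, 4), (t, x, 7)} ∪
    (vs φ).toFinset.filter fun u => u.1 = 0 ∧ adj φ (t, x, 0) u from Finset.ext fun ⟨a, b, d⟩ => by
      have := hx 7 (by omega)
      simp only [mem_nb (hx 0 (by omega)), adj, mem_vs, mem_union, mem_filter, mem_insert,
        List.mem_toFinset, mem_singleton, Prod.mk.injEq, ht,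
        false_and, and_false, false_or, or_false, not_false_eq_true, true_and] at this ⊢
      clear * - this ht
      by_cases a = t ∧ b = x
      · obtain ⟨rfl, rfl⟩ := ‹_ ∧ _›
        simp [ht]; omega
      · by_cases e : a = 0
        · subst a; simp [ht.symm]
        · by_cases e' : a = t
          · subst e'
            simp_all [eq_comm (b := b)]
          · simp [e, e', Ne.symm e'], sum_union (disjoint_left.2 fun ⟨a, b, d⟩ => by
        simp only [mem_filter, mem_insert, mem_singleton, Prod.mk.injEq]; omega),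
    sum_insert (by simp), sum_insert (by simp), sum_pair (by simp)] at a0
  have a1 := a 1
  have a2 := a 2
  have a3 := a 3
  have a4 := a 4
  have a5 := a 5
  have a6 := a 6
  have a7 := a 7
  simp only [sum_range_succ, sum_range_zero]
  norm_num at a1 a2 a3 a4 a5 a6 a7
  refine ⟨by omega, or_iff_not_imp_right.2 fun h => ?_⟩
  have := sum_nonpos (s := (vs φ).toFinset.filter fun u => u.1 = 0 ∧ adj φ (t, x, 0) u) (f := f)
    fun u hu => by
      rw [mem_filter, List.mem_toFinset] at hu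
      exact not_lt.1 fun e => h ⟨u, hu.1, hu.2.1, hu.2.2, e⟩
  omega

omit hf

theorem result : NPHard ZDom := by
  refine (hard_SAT3.red (fun φ => (vs φ, es φ, toBits (5 * nv φ + 2 * φ.length), []))
    (by unfold es vs blk adj oc ln; fun_prop) fun φ => ?_).npHard
  simp only [sat_iff, ZDom, bin, ofDigits_toBits, sum_vs]
  constructor
  · rintro ⟨σ, h⟩
    let f : V → ℤ := fun v => if (v.1 = 0 ∧ (v.2.2 = 2 ∨ v.2.2 = 3 ∨ v = ln (v.2.1, σ v.2.1))) ∨
      (v.1 ≠ 0 ∧ (v.2.2 = 3 ∨ v.2.2 = 5)) then 1 else 0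
    refine ⟨f, fun v hv => ?_, ?_⟩
    · suffices ∃ u ∈ nb (vs φ) (es φ) v, f u = 1 from this.elim fun u hu =>
        hu.2.ge.trans (single_le_sum (fun u _ => by simp only [f]; positivity) hu.1)
      obtain ⟨t, x, c⟩ := v
      simp only [mem_nb hv]
      by_cases e : c = 0 ∧ t ≠ 0
      · obtain ⟨rfl, e⟩ := e
        rcases mem_vs.1 hv with ⟨rfl, -⟩ | ⟨rfl, h1, -⟩ | ⟨rfl, h1, -⟩
        · simp at e
        · refine ⟨ln (x, σ x), ?_, by simp [f, ln]⟩
          cases σ x <;> simp [mem_vs, adj, ln] <;> omega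
        · obtain ⟨i, hi, h2⟩ := h x h1
          have := lit_lt φ (3 * x + i)
          have := ln_0 (lit φ (3 * x + i))
          refine ⟨ln (lit φ (3 * x + i)), ⟨mem_vs.2 (.inl ⟨rfl, by assumption, by omega⟩), ?_⟩,
            by simp [f, ln, h2]⟩
          refine .inr (.inr (.inr (.inr (.inr ⟨rfl, rfl, rfl, this.2, if_pos ?_⟩))))
          interval_cases i <;> simp
      · refine ⟨(t, x, if t = 0 then c % 2 + 2 else if c = 2 ∨ c = 3 ∨ c = 7 then 3 else 5), ?_,
          if_pos (by simp only; split_ifs <;> omega)⟩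
        simp only [mem_vs, adj, Prod.mk.injEq] at hv ⊢
        split_ifs <;> simp [*] <;> omega
    · rw [sum_congr (s₁ := range (nv φ)) rfl (g := fun _ => 5) fun x _ => ?_,
        sum_congr (s₁ := range φ.length) rfl (g := fun _ => 2) fun x _ => ?_]
      · simp [mul_comm]
      · simp only [sum_range_succ]; simp [f]
      · cases e : σ x <;> simp only [sum_range_succ] <;> simp [f, ln, e]
  · rintro ⟨f, hf, h⟩
    have a1 : ∀ x ∈ range (nv φ), 5 + (if 1 ≤ f (0, x, 0) ∧ 1 ≤ f (0, x, 1) then 1 else 0) ≤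
        ∑ c ∈ range 6, f (0, x, c) + ∑ c ∈ range 8, f (1, x, c) := fun x hx => by
      rw [mem_range] at hx
      have b1 := path hf hx zero_lt_two
      have b2 := path hf hx one_lt_two
      obtain ⟨b3, b4⟩ := wag hf (x := x) one_ne_zero fun c hc => by simp [mem_vs, hx, hc]
      have b5 : 3 ≤ ∑ c ∈ range 8, f (1, x, c) ∨ 1 ≤ f (0, x, 0) ∨ 1 ≤ f (0, x, 1) :=
        b4.imp id fun ⟨⟨a, b, c⟩, _, w, u, v⟩ => by
          simp only [adj] at u w
          obtain ⟨rfl, rfl, rfl | rfl⟩ : a = 0 ∧ b = x ∧ (c = 0 ∨ c = 1) := by omega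
          exacts [.inl v, .inr v]
      rw [sum_range_succ, sum_range_succ, sum_range_succ, sum_range_succ, sum_range_succ,
        sum_range_one]
      norm_num at b1 b2
      split_ifs <;> omega
    have a2 := fun j (hj : j ∈ range φ.length) => wag hf (x := j) two_ne_zero fun c hc => by
      simp [mem_vs, mem_range.1 hj, hc]
    have a3 : ∀ x ∈ range (nv φ), (5 : ℤ) ≤ _ := fun x hx => le_trans (le_add_of_nonneg_right (by positivity)) (a1 x hx)
    have a4 := sum_le_sum a3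
    have a5 := sum_le_sum fun j hj => (a2 j hj).1
    simp only [sum_const, card_range, nsmul_eq_mul] at a4 a5
    norm_num at h
    have a6 := (sum_eq_sum_iff_of_le a3).1 (by simp only [sum_const, card_range, nsmul_eq_mul]; omega)
    have a7 := (sum_eq_sum_iff_of_le fun j hj => (a2 j hj).1).1
      (by simp only [sum_const, card_range, nsmul_eq_mul]; omega)
    refine ⟨fun x => decide (1 ≤ f (0, x, 1)), fun j hj => ?_⟩
    obtain ⟨u, -, u1, u2, u3⟩ := (a2 j (mem_range.2 hj)).2.resolve_left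
      (by rw [← a7 j (mem_range.2 hj)]; omega)
    obtain ⟨i, hi, rfl⟩ : ∃ i < 3, u = ln (lit φ (3 * j + i)) := by
      have : oc φ j u = 1 := by simp only [adj] at u2; omega
      rcases (ite_eq_left_iff.1 this).mt (by simp) |> not_not.1 with h | h | h
      exacts [⟨0, by omega, h⟩, ⟨1, by omega, h⟩, ⟨2, by omega, h⟩]
    refine ⟨i, hi, ?_⟩
    have b1 := mem_range.2 (lit_lt φ (3 * j + i))
    have b2 := (a1 _ b1).trans_eq (a6 _ b1).symm
    cases e : (lit φ (3 * j + i)).2 <;> simp only [ln, e, cond] at u3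
    · exact decide_eq_false fun h => by simp [h, u3] at b2
    · exact decide_eq_true u3

end Pool.Agent.Results.MP_f6aff2_lc.NPHard
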